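import Pool.Agent.W165.CE.Avg
import Pool.Agent.W165.CE.Euler

/-!
# The zeros of `L(E/ℚ(ζ_q), s)` on the line `Re s = 1`, for every elliptic curve `E` over `ℚ`

`E : y² = x³ + a x + b` is any elliptic curve over `ℚ` (with or without complex multiplication), `N`
is its conductor and `f ∈ S_2(Γ₀(N))` is its newform.  For every cyclotomic field `K = ℚ(ζ_q)`, `q`
prime to `N`, the Hasse-Weil `L`-function `L(E/K, s)` (the Euler product over all primes `v` of `K`,
with the numbers of points over the residue fields) is entire, and in the average over `X < q ≤ Y` at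
least 67.25% of its zeros with `1/2 < Re s < 3/2`, `T < Im s ≤ 2T` lie on `Re s = 1`.

The theorem on the twists of a newform is the joint work of helper388 and others (module
`Pool.Agent.W388.TW.Final`); the arithmetic of the cyclotomic fields is that of the starting modules
`Pool.Agent.H82R3.EK`, generalised here (helper165) from `y² = x³ - D² x` to all elliptic curves.
-/

set_option autoImplicit false

open Complex NumberField IsDedekindDomain UpperHalfPlane MatrixGroups CongruenceSubgroup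

namespace Pool.Agent.Results.MP_fb225e_nt.CyclotomicEveryCurve6725

/-- The coefficient `a_p` of `E : y² = x³ + a x + b` at a prime `p ∤ 2 (4a³ + 27b²)`: `p` minus the
number of pairs `(x, y)` modulo `p` with `y² = x³ + a x + b`. -/
noncomputable def ap (a b : ℤ) (p : ℕ) : ℤ :=
  (p : ℤ) - Nat.card {x : ZMod p × ZMod p //
    x.2 ^ 2 = x.1 ^ 3 + (a : ZMod p) * x.1 + (b : ZMod p)}

/-- The `n`-th Fourier coefficient of `f`. -/
noncomputable def coef {N : ℕ} (f : CuspForm (Gamma0 N : Subgroup (GL (Fin 2) ℝ)) 2) (n : ℕ) : ℂ :=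
  (qExpansion 1 f).coeff n

/-- `f ∈ S_2(Γ₀(N))` is the newform of the elliptic curve `E : y² = x³ + a x + b`: the Fourier
coefficients `c(n)` of `f` are real with `c(1) = 1`, they satisfy the Hecke relations
`c(mn) = c(m) c(n)` for coprime `m`, `n` and `c(p^(j+2)) = c(p) c(p^(j+1)) - p c(p^j)` (without the
last term if `p ∣ N`), `f` is an eigenfunction of the Fricke involution:
`f(-1/(Nτ)) = -w N τ² f(τ)` with `w = ±1`, and for all primes `p ∤ 2 (4a³ + 27b²)` one has `p ∤ N`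
and `c(p) = a_p(E)`. -/
structure IsFormOf (a b : ℤ) (N : ℕ) (f : CuspForm (Gamma0 N : Subgroup (GL (Fin 2) ℝ)) 2) :
    Prop where
  one : coef f 1 = 1
  real : ∀ n, (coef f n).im = 0
  mul : ∀ m n : ℕ, Nat.Coprime m n → coef f (m * n) = coef f m * coef f n
  pow : ∀ p j : ℕ, p.Prime → coef f (p ^ (j + 2)) = coef f p * coef f (p ^ (j + 1)) -
      (if p ∣ N then 0 else (p : ℂ) * coef f (p ^ j))
  fricke : ∃ w : ℝ, (w = 1 ∨ w = -1) ∧ ∀ τ τ' : ℍ, (τ' : ℂ) * ((N : ℂ) * (τ : ℂ)) = -1 →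
    f τ' = -(w : ℂ) * (N : ℂ) * (τ : ℂ) ^ 2 * f τ
  points : ∀ p : ℕ, p.Prime → ¬ (p : ℤ) ∣ 2 * (4 * a ^ 3 + 27 * b ^ 2) →
    ¬ p ∣ N ∧ coef f p = (ap a b p : ℂ)

/-- `pw t u n = α ^ n + β ^ n`, where `α`, `β` are the roots of `X² - t X + u`. -/
noncomputable def pw (t u : ℂ) : ℕ → ℂ
  | 0 => 2
  | 1 => t
  | n + 2 => t * pw t u (n + 1) - u * pw t u n

section
variable {K : Type} [Field K] [NumberField K]

/-- The number `a_v` of `E : y² = x³ + a x + b` at a prime `v` of `K`: `Nv` minus the number of affine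
solutions `(x, y)` of the equation over the residue field `𝓞 K / v`. -/
noncomputable def av (a b : ℤ) (v : HeightOneSpectrum (𝓞 K)) : ℤ :=
  ((Ideal.absNorm v.asIdeal : ℕ) : ℤ) -
    ((Nat.card {x : (𝓞 K ⧸ v.asIdeal) × (𝓞 K ⧸ v.asIdeal) //
      x.2 ^ 2 = x.1 ^ 3 + (a : 𝓞 K ⧸ v.asIdeal) * x.1 + (b : 𝓞 K ⧸ v.asIdeal)} : ℕ) : ℤ)

open Classical in
/-- The local factor of `L(E/K, s)` at the prime `v` of `K`.  If `v ∤ 2 (4a³ + 27b²)`, it is
`(1 - a_v (Nv)^(-s) + (Nv)^(1-2s))⁻¹`.  If `v ∣ 2 (4a³ + 27b²)` and `Nv = p ^ d` with `p` prime, it is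
`(1 - (α^d + β^d) (Nv)^(-s) + (Nv)^(1-2s))⁻¹` for `p ∤ N`, where `α`, `β` are the roots of
`X² - c(p) X + p`, and `(1 - c(p)^d (Nv)^(-s))⁻¹` for `p ∣ N`. -/
noncomputable def factor (a b : ℤ) {N : ℕ} (f : CuspForm (Gamma0 N : Subgroup (GL (Fin 2) ℝ)) 2)
    (s : ℂ) (v : HeightOneSpectrum (𝓞 K)) : ℂ :=
  if ((2 * (4 * a ^ 3 + 27 * b ^ 2) : ℤ) : 𝓞 K) ∈ v.asIdeal then
    (1 - pw (coef f (Ideal.absNorm v.asIdeal).minFac)
          (if (Ideal.absNorm v.asIdeal).minFac ∣ N then 0 else ((Ideal.absNorm v.asIdeal).minFac : ℂ))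
          ((Ideal.absNorm v.asIdeal).factorization (Ideal.absNorm v.asIdeal).minFac)
          * ((Ideal.absNorm v.asIdeal : ℕ) : ℂ) ^ (-s)
      + (if (Ideal.absNorm v.asIdeal).minFac ∣ N then (0 : ℂ) else
          ((Ideal.absNorm v.asIdeal : ℕ) : ℂ) ^ (1 - 2 * s)))⁻¹
  else
    (1 - ((av a b v : ℤ) : ℂ) * ((Ideal.absNorm v.asIdeal : ℕ) : ℂ) ^ (-s)
      + ((Ideal.absNorm v.asIdeal : ℕ) : ℂ) ^ (1 - 2 * s))⁻¹

end

/-- The zeros of `F` with `1/2 < Re s < 3/2` and `T < Im s ≤ 2T`. -/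
def zeros (F : ℂ → ℂ) (T : ℝ) : Set ℂ :=
  {s : ℂ | 1 / 2 < s.re ∧ s.re < 3 / 2 ∧ T < s.im ∧ s.im ≤ 2 * T ∧ F s = 0}

/-- The number of these zeros, counted with multiplicity. -/
noncomputable def Nz (F : ℂ → ℂ) (T : ℝ) : ℕ := ∑ᶠ s ∈ zeros F T, analyticOrderNatAt F s

/-- The number of those of them that lie on the line `Re s = 1`, counted with multiplicity. -/
noncomputable def N₀ (F : ℂ → ℂ) (T : ℝ) : ℕ :=
  ∑ᶠ s ∈ {s : ℂ | s ∈ zeros F T ∧ s.re = 1}, analyticOrderNatAt F s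

/-! ### Translation from the analytic normalisation -/

theorem order_shift (L : ℂ → ℂ) (s : ℂ) :
    analyticOrderNatAt (fun z => L (z - 1 / 2)) (s + 1 / 2) = analyticOrderNatAt L s := by
  have hg : AnalyticAt ℂ (fun z : ℂ => z - 1 / 2) (s + 1 / 2) := by fun_prop
  have hd : deriv (fun z : ℂ => z - 1 / 2) (s + 1 / 2) ≠ 0 := by
    simp
  have h := analyticOrderAt_comp_of_deriv_ne_zero (f := L) hg hd
  unfold analyticOrderNatAt
  have h2 : (fun z : ℂ => L (z - 1 / 2)) = L ∘ (fun z : ℂ => z - 1 / 2) := rfl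
  rw [h2, h]
  norm_num

theorem mem_shift (L : ℂ → ℂ) (T : ℝ) (s : ℂ) :
    s + 1 / 2 ∈ zeros (fun z => L (z - 1 / 2)) T ↔ s ∈ H370.zset L T (2 * T) := by
  have h1 : (s + 1 / 2 : ℂ).re = s.re + 1 / 2 := by simp
  have h2 : (s + 1 / 2 : ℂ).im = s.im := by simp
  have h3 : s + 1 / 2 - 1 / 2 = s := by ring
  constructor
  · rintro ⟨a, b, c, d, e⟩
    rw [h1] at a b
    rw [h2] at c d
    simp only [h3] at e
    exact ⟨by linarith, by linarith, c, d, e⟩
  · rintro ⟨a, b, c, d, e⟩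
    refine ⟨by rw [h1]; linarith, by rw [h1]; linarith, by rw [h2]; exact c,
      by rw [h2]; exact d, ?_⟩
    simp only [h3]
    exact e

theorem zeros_shift (L : ℂ → ℂ) (T : ℝ) :
    zeros (fun z => L (z - 1 / 2)) T = (fun s : ℂ => s + 1 / 2) '' H370.zset L T (2 * T) := by
  ext s
  constructor
  · intro hs
    refine ⟨s - 1 / 2, ?_, by ring⟩
    rw [← mem_shift]
    convert hs using 1
    ring
  · rintro ⟨t, ht, rfl⟩
    exact (mem_shift L T t).mpr ht

theorem inj_shift : Function.Injective (fun s : ℂ => s + 1 / 2) := fun a b h => by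
  simpa using h

theorem Nz_shift (L : ℂ → ℂ) (T : ℝ) :
    Nz (fun z => L (z - 1 / 2)) T = H370.NN L T (2 * T) := by
  unfold Nz H370.NN
  rw [zeros_shift, finsum_mem_image (inj_shift.injOn)]
  refine finsum_congr fun s => finsum_congr fun _ => ?_
  exact order_shift L s

open Pool.Agent.H82R3.EK in
theorem N₀_shift (L : ℂ → ℂ) (T : ℝ) :
    N₀ (fun z => L (z - 1 / 2)) T = cnt L (line T (2 * T)) := by
  unfold N₀ cnt
  have h : {s : ℂ | s ∈ zeros (fun z => L (z - 1 / 2)) T ∧ s.re = 1} =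
      (fun s : ℂ => s + 1 / 2) '' {s : ℂ | s ∈ line T (2 * T) ∧ L s = 0} := by
    ext s
    constructor
    · rintro ⟨h1, h2⟩
      rw [zeros_shift] at h1
      obtain ⟨t, ⟨_, _, h3, h4, h5⟩, rfl⟩ := h1
      refine ⟨t, ⟨⟨?_, h3, h4⟩, h5⟩, rfl⟩
      have h6 : (t + 1 / 2 : ℂ).re = t.re + 1 / 2 := by simp
      rw [h6] at h2
      linarith
    · rintro ⟨t, ⟨⟨h1, h3, h4⟩, h5⟩, rfl⟩
      refine ⟨(mem_shift L T t).mpr ⟨by rw [h1]; norm_num, by rw [h1]; norm_num, h3, h4, h5⟩, ?_⟩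
      have h6 : (t + 1 / 2 : ℂ).re = t.re + 1 / 2 := by simp
      rw [h6, h1]
      norm_num
  rw [h, finsum_mem_image (inj_shift.injOn)]
  refine finsum_congr fun s => finsum_congr fun _ => ?_
  exact order_shift L s

theorem lamf_eq {N : ℕ} (f : CuspForm (Gamma0 N : Subgroup (GL (Fin 2) ℝ)) 2)
    (hr : ∀ n, (coef f n).im = 0) (p : ℕ) (hp : p.Prime) (s : ℂ) :
    (W388.lamf f p : ℂ) * (p : ℂ) ^ (-(s - 1 / 2)) = coef f p * (p : ℂ) ^ (-s) := by
  have hp0 : (0 : ℝ) < p := by exact_mod_cast hp.pos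
  have hpc : (p : ℂ) ≠ 0 := by exact_mod_cast hp.ne_zero
  have hc : coef f p = ((coef f p).re : ℂ) := by
    apply Complex.ext
    · simp
    · simp [hr p]
  unfold W388.lamf
  rw [hc]
  unfold coef
  rw [show -(s - 1 / 2) = -s + (1 / 2 : ℂ) by ring, Complex.cpow_add _ _ hpc]
  push_cast
  rw [Complex.ofReal_cpow hp0.le]
  have e : ((((2 : ℝ) - 1) / 2 : ℝ) : ℂ) = (1 / 2 : ℂ) := by push_cast; norm_num
  rw [e]
  have hne : (p : ℂ) ^ (1 / 2 : ℂ) ≠ 0 := by
    rw [Ne, Complex.cpow_eq_zero_iff]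
    exact fun h => hpc h.1
  rw [Complex.ofReal_natCast]
  field_simp

theorem eul_shift {N : ℕ} (f : CuspForm (Gamma0 N : Subgroup (GL (Fin 2) ℝ)) 2)
    (hr : ∀ n, (coef f n).im = 0) (q : ℕ)
    (χ : DirichletCharacter ℂ q) (s : ℂ) (p : ℕ) (hp : p.Prime) :
    W165.CE.eul N (coef f) q χ s p =
      (1 - χ (p : ZMod q) * (W388.lamf f p : ℂ) * (p : ℂ) ^ (-(s - 1 / 2)) +
      (if p ∣ N then 0 else χ (p : ZMod q) ^ 2 * (p : ℂ) ^ (-2 * (s - 1 / 2))))⁻¹ := by
  unfold W165.CE.eul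
  rw [mul_assoc (χ (p : ZMod q)) (W388.lamf f p : ℂ), lamf_eq f hr p hp s,
    mul_assoc (χ (p : ZMod q)) (coef f p), show (-2 * (s - 1 / 2) : ℂ) = 1 - 2 * s by ring,
    Pool.Agent.H82R3.EK.prime_cpow p hp.ne_zero s]
  split_ifs with h
  · rw [zero_mul, mul_zero]
  · rfl

theorem pw_eq_lib (t u : ℂ) : ∀ n : ℕ, pw t u n = W165.CE.pw t u n
  | 0 => rfl
  | 1 => rfl
  | n + 2 => by
    rw [pw, W165.CE.pw, pw_eq_lib t u (n + 1), pw_eq_lib t u n]

theorem factor_eq_lib (a b : ℤ) {N : ℕ} (f : CuspForm (Gamma0 N : Subgroup (GL (Fin 2) ℝ)) 2)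
    {K : Type} [Field K] [NumberField K] (s : ℂ) (v : HeightOneSpectrum (𝓞 K)) :
    factor a b f s v = W165.CE.fac a b N (coef f) s v := by
  unfold factor W165.CE.fac
  rw [pw_eq_lib]
  rfl

open Pool.Agent.H82R3.EK in
/-- **Main theorem.** Let `E : y² = x³ + a x + b` be an elliptic curve over `ℚ` and let
`f ∈ S_2(Γ₀(N))` be its newform. There are functions `L q` such that for every `q` prime to `N` and
every cyclotomic field `K = ℚ(ζ_q)`, `L q` is entire and is for `Re s > 3/2` the Euler product over all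
primes `v` of `K` of the local factors of `E`; and there are constants `κ`, `η`, `X₀` such that for
`X ≥ X₀`, `κ X ≤ Y ≤ X ^ (1 + η)` and `(log X)² ≤ T ≤ X ^ η`, with the weight `1/q²`, at least 67.25%
of the zeros in `1/2 < Re s < 3/2`, `T < Im s ≤ 2T` of all `L q`, `X < q ≤ Y`, `(q, N) = 1` (counted
with multiplicity) lie on the line `Re s = 1`; the weighted number of zeros is at least `T`. -/
theorem result (a b : ℤ) (hE : 4 * a ^ 3 + 27 * b ^ 2 ≠ 0) (N : ℕ) [NeZero N]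
    (f : CuspForm (Gamma0 N : Subgroup (GL (Fin 2) ℝ)) 2) (hf : IsFormOf a b N f) :
    ∃ L : ℕ → ℂ → ℂ,
      (∀ q : ℕ, 1 ≤ q → Nat.Coprime q N → Differentiable ℂ (L q) ∧
        ∀ (K : Type) [Field K] [NumberField K] [IsCyclotomicExtension {q} ℚ K] (s : ℂ), 3 / 2 < s.re →
          HasProd (fun v : HeightOneSpectrum (𝓞 K) => factor a b f s v) (L q s)) ∧
      ∃ κ η X₀ : ℝ, 1 ≤ κ ∧ 0 < η ∧ 1 ≤ X₀ ∧
        ∀ (X Y : ℕ) (T : ℝ), X₀ ≤ X → κ * X ≤ Y → (Y : ℝ) ≤ (X : ℝ) ^ (1 + η) →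
        (Real.log X) ^ 2 ≤ T → T ≤ (X : ℝ) ^ η →
        T ≤ ∑ q ∈ (Finset.Ioc X Y).filter (fun q => Nat.Coprime q N),
            (1 / (q : ℝ) ^ 2) * (Nz (L q) T : ℝ) ∧
        0.6725 * ∑ q ∈ (Finset.Ioc X Y).filter (fun q => Nat.Coprime q N),
            (1 / (q : ℝ) ^ 2) * (Nz (L q) T : ℝ) ≤
          ∑ q ∈ (Finset.Ioc X Y).filter (fun q => Nat.Coprime q N),
            (1 / (q : ℝ) ^ 2) * (N₀ (L q) T : ℝ) := by
  classical
  obtain ⟨w, hw, hfr⟩ := hf.fricke
  have hN0 : (0 : ℝ) ≤ (N : ℝ) := Nat.cast_nonneg N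
  have hsq : ((Real.sqrt N : ℝ) : ℂ) ^ 2 = (N : ℂ) := by
    have h1 : (Real.sqrt N) ^ 2 = (N : ℝ) := Real.sq_sqrt hN0
    exact_mod_cast congrArg (fun x : ℝ => (x : ℂ)) h1
  have hf' : W388.IsNewf N 2 f w := by
    refine ⟨hf.one, hf.real, hf.mul, ?_, hw, ?_⟩
    · intro p j hp
      have h1 := hf.pow p j hp
      unfold coef at h1
      rw [h1]
      norm_num
    · intro τ τ' h
      rw [hfr τ τ' h]
      congr 1
      have hI : Complex.I ^ 2 = -1 := Complex.I_sq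
      have : (((Real.sqrt N : ℝ) : ℂ) * (τ : ℂ) / Complex.I) ^ (2 : ℤ) = -((N : ℂ) * (τ : ℂ) ^ 2) := by
        rw [zpow_ofNat, div_pow, mul_pow, hsq, hI]
        ring
      rw [this]
      ring
  obtain ⟨L, A, hA, hL, K, η, X0, hK, hη, hX0, h⟩ := W165.CE.avg_main (by norm_num) hf'
  have H : ∀ p : ℕ, p.Prime → ¬ (p : ℤ) ∣ 2 * (4 * a ^ 3 + 27 * b ^ 2) →
      ¬ p ∣ N ∧ coef f p = ((W165.CE.ap0 a b p : ℤ) : ℂ) := fun p hp h => hf.points p hp h
  refine ⟨fun q s => ∏ᶠ χ : DirichletCharacter ℂ q, L χ.conductor χ.primitiveCharacter (s - 1 / 2), ?_,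
    K, η, max X0 3, hK, hη, le_trans hX0 (le_max_left _ _), ?_⟩
  · intro q hq hqM
    have : NeZero q := ⟨by omega⟩
    simp_rw [finprod_eq_prod_of_fintype]
    refine ⟨?_, ?_⟩
    · have h1 : ∀ χ ∈ (Finset.univ : Finset (DirichletCharacter ℂ q)),
          Differentiable ℂ (fun s : ℂ => L χ.conductor χ.primitiveCharacter (s - 1 / 2)) := by
        intro χ _
        have h2 := (hL χ.conductor χ.primitiveCharacter (Nat.one_le_iff_ne_zero.2 χ.conductor_ne_zero)
          (Nat.Coprime.coprime_dvd_left χ.conductor_dvd_level hqM) χ.primitiveCharacter_isPrimitive).1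
        exact h2.comp (by fun_prop)
      exact Differentiable.fun_finsetProd h1
    · intro K _ _ _ s hs
      have h2 := W165.CE.hasProd_euler hE H (fun q χ s => L q χ (s - 1 / 2)) (by
        intro q χ h1 h2 h3 s hs
        have h4 := (hL q χ h1 h2 h3).2.1 (s - 1 / 2) (by
          have : (s - 1 / 2 : ℂ).re = s.re - 1 / 2 := by simp
          rw [this]; linarith)
        refine (congrArg (fun g => HasProd g (L q χ (s - 1 / 2))) (funext fun p => ?_)).mpr h4
        exact eul_shift f hf.real q χ s p p.2) q hqM K s hs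
      refine (congrArg (fun g => HasProd g _) (funext fun v => ?_)).mpr h2
      exact factor_eq_lib a b f s v
  · intro X Y T a1 a2 a3 a4 a5
    have hX3 : (3 : ℝ) ≤ X := le_trans (le_max_right _ _) a1
    obtain ⟨b1, b2⟩ := h X Y T (le_trans (le_max_left _ _) a1) a2 a3 a4 a5
    have hT1 : 1 ≤ T := by
      refine le_trans ?_ a4
      have h1 : 1 ≤ Real.log X := by
        rw [Real.le_log_iff_exp_le (by linarith)]
        exact le_trans (by have := Real.exp_one_lt_d9; linarith) hX3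
      nlinarith
    -- for a single `q`
    have key : ∀ q ∈ (Finset.Ioc X Y).filter (fun q => Nat.Coprime q N),
        ((Nz (fun s => ∏ᶠ χ : DirichletCharacter ℂ q, L χ.conductor χ.primitiveCharacter (s - 1 / 2)) T : ℕ) : ℝ) =
          SS (fun q χ => (H370.NN (L q χ) T (2 * T) : ℝ)) q ∧
        SS (fun q χ => (H370.Ns (L q χ) T (2 * T) : ℝ)) q ≤
          ((N₀ (fun s => ∏ᶠ χ : DirichletCharacter ℂ q, L χ.conductor χ.primitiveCharacter (s - 1 / 2)) T : ℕ) : ℝ) := by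
      intro q hq
      rw [Finset.mem_filter, Finset.mem_Ioc] at hq
      obtain ⟨⟨hq1, hq2⟩, hqM⟩ := hq
      have : NeZero q := ⟨by omega⟩
      have hG : ∀ χ : DirichletCharacter ℂ q, Differentiable ℂ (L χ.conductor χ.primitiveCharacter) ∧
          ∃ a : ℕ → ℂ, W388.GoodE 2 A (χ.conductor : ℝ) (L χ.conductor χ.primitiveCharacter) a := by
        intro χ
        have h2 := hL χ.conductor χ.primitiveCharacter (Nat.one_le_iff_ne_zero.2 χ.conductor_ne_zero)
          (Nat.Coprime.coprime_dvd_left χ.conductor_dvd_level hqM) χ.primitiveCharacter_isPrimitive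
        exact ⟨h2.1, h2.2.2⟩
      have hQ : ∀ χ : DirichletCharacter ℂ q, (1 : ℝ) ≤ (χ.conductor : ℝ) := by
        intro χ
        have : 1 ≤ χ.conductor := Nat.pos_of_ne_zero χ.conductor_ne_zero
        exact_mod_cast this
      have hfin : ∀ χ : DirichletCharacter ℂ q,
          (H370.zset (L χ.conductor χ.primitiveCharacter) T (2 * T)).Finite := by
        intro χ
        obtain ⟨_, a, ha⟩ := hG χ
        exact W388.zset_finite_D hA (hQ χ) ha T (2 * T) hT1
      have han : ∀ (χ : DirichletCharacter ℂ q) (s : ℂ), AnalyticAt ℂ (L χ.conductor χ.primitiveCharacter) s :=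
        fun χ s => (hG χ).1.analyticAt s
      have htop : ∀ (χ : DirichletCharacter ℂ q) (s : ℂ),
          analyticOrderAt (L χ.conductor χ.primitiveCharacter) s ≠ ⊤ := by
        intro χ s
        obtain ⟨_, a, ha⟩ := hG χ
        have h1 : L χ.conductor χ.primitiveCharacter (⟨2, 1⟩ : ℂ) ≠ 0 := ha.nzr _ (by norm_num) (by norm_num)
        exact H370.Loc.order_ne_top (K := Set.univ) isPreconnected_univ (fun z _ => han χ z)
          (Set.mem_univ _) h1 (Set.mem_univ s)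
      have e1 : (fun s : ℂ => ∏ᶠ χ : DirichletCharacter ℂ q, L χ.conductor χ.primitiveCharacter (s - 1 / 2)) =
          fun s : ℂ => (fun z : ℂ => ∏ χ : DirichletCharacter ℂ q, L χ.conductor χ.primitiveCharacter z) (s - 1 / 2) := by
        funext s
        exact finprod_eq_prod_of_fintype _
      rw [e1, Nz_shift (fun z : ℂ => ∏ χ : DirichletCharacter ℂ q, L χ.conductor χ.primitiveCharacter z) T,
        N₀_shift (fun z : ℂ => ∏ χ : DirichletCharacter ℂ q, L χ.conductor χ.primitiveCharacter z) T, NN_eq]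
      unfold SS
      rw [finsum_eq_sum_of_fintype, finsum_eq_sum_of_fintype]
      rw [cnt_prod Finset.univ (fun χ : DirichletCharacter ℂ q => L χ.conductor χ.primitiveCharacter)
        (W := strip T (2 * T)) (fun χ _ s _ => han χ s) (fun χ _ s _ => htop χ s) (fun χ _ => ?_),
        cnt_prod Finset.univ (fun χ : DirichletCharacter ℂ q => L χ.conductor χ.primitiveCharacter)
        (W := line T (2 * T)) (fun χ _ s _ => han χ s) (fun χ _ s _ => htop χ s) (fun χ _ => ?_)]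
      · refine ⟨?_, ?_⟩
        · push_cast
          exact Finset.sum_congr rfl fun χ _ => by rw [NN_eq]
        · push_cast
          exact Finset.sum_le_sum fun χ _ => by exact_mod_cast Ns_le _ T (2 * T) (hfin χ)
      · refine (hfin χ).subset ?_
        rintro s ⟨⟨h1, h2, h3⟩, h4⟩
        exact ⟨by rw [h1]; norm_num, by rw [h1]; norm_num, h2, h3, h4⟩
      · refine (hfin χ).subset ?_
        rintro s ⟨⟨h1, h2, h3, h4⟩, h5⟩
        exact ⟨h1, h2, h3, h4, h5⟩
    have k1 : ∑ q ∈ (Finset.Ioc X Y).filter (fun q => Nat.Coprime q N),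
        (1 / (q : ℝ) ^ 2) * ((Nz (fun s => ∏ᶠ χ : DirichletCharacter ℂ q,
          L χ.conductor χ.primitiveCharacter (s - 1 / 2)) T : ℕ) : ℝ) =
        ∑ q ∈ (Finset.Ioc X Y).filter (fun q => Nat.Coprime q N),
        (1 / (q : ℝ) ^ 2) * SS (fun q χ => (H370.NN (L q χ) T (2 * T) : ℝ)) q :=
      Finset.sum_congr rfl fun q hq => by rw [(key q hq).1]
    have k2 : ∑ q ∈ (Finset.Ioc X Y).filter (fun q => Nat.Coprime q N),
        (1 / (q : ℝ) ^ 2) * SS (fun q χ => (H370.Ns (L q χ) T (2 * T) : ℝ)) q ≤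
        ∑ q ∈ (Finset.Ioc X Y).filter (fun q => Nat.Coprime q N),
        (1 / (q : ℝ) ^ 2) * ((N₀ (fun s => ∏ᶠ χ : DirichletCharacter ℂ q,
          L χ.conductor χ.primitiveCharacter (s - 1 / 2)) T : ℕ) : ℝ) :=
      Finset.sum_le_sum fun q hq => mul_le_mul_of_nonneg_left (key q hq).2 (by positivity)
    rw [k1]
    exact ⟨b1, b2.trans k2⟩

end Pool.Agent.Results.MP_fb225e_nt.CyclotomicEveryCurve6725
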