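import Pool.Agent.W355.EK.Main

/-!
# Jensen polynomials of `L(E/K, s)` for the ray class fields `K` of `ℚ(i)`

`E : y² = x³ - D x`, `D` a non-zero integer (these are, up to isomorphism, the elliptic curves over
`ℚ` with `j = 1728`), and `K` is a ray class field of `ℚ(i)` whose modulus `q` is divisible by
`2 + 2i` and which contains a fourth root of `D` (for `D = 1`, every such ray class field); so the degree
of `K` is unbounded, and `L(E/K, s)` has degree `2 [K : ℚ]`.

The completed L-function `Λ(E/K, s) = Λ(E/K, 2 - s)` is entire (this is part of the result).  The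
Riemann hypothesis for `L(E/K, s)` holds if and only if all Jensen polynomials `J^{d,n}` of the Taylor
coefficients of `Λ(E/K, s)` at the central point `s = 1` have only real nonpositive zeros (or vanish).
We prove that there is a constant `C` such that `J^{d,n}` has degree `d` and only real negative zeros
for ALL degrees `d` and ALL shifts `n ≥ C log (d + 1)`, and that the Riemann hypothesis for `L(E/K, s)`
holds if and only if the remaining `J^{d,n}`, `n < C log (d + 1)`, have only real nonpositive zeros (or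
vanish).  Nothing is assumed.

Proof.  (1) The Euler product of `L(E/K, s)` is the product of the L-functions of all Hecke characters
`ψ_E χ`, `χ` a ray class character modulo `q`, and of the conjugate characters (modules
`Pool.Agent.W164.RC` of helper164).  (2) The completed Hecke L-functions are Mellin transforms of theta
series; products are the Fourier-Laplace transforms of iterated convolutions (`Pool.Agent.W355.LJ`),
to which the starting modules `Pool.Agent.H471R3.GJ` (helper471 and co-authors, after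
`Pool.Agent.H24R2.JP` of helper24 for the Riemann zeta function) apply.
-/

set_option autoImplicit false

open Complex NumberField IsDedekindDomain Polynomial
open scoped ComplexConjugate

namespace Pool.Agent.Results.MP_fb225e_nt.JensenRayClassFields

/-- `K` is the ray class field of `ℚ(i)` of modulus `q`: `ι` embeds `ℤ[i]` into the ring of integers
of `K`, and `art` is the Artin map, a homomorphism from `(ℤ[i]/q)ˣ` to the group of automorphisms of
the ring of integers of `K` (equivalently of `K`) such that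
* `ℤ[i]` is the ring of invariants (so `K/ℚ(i)` is Galois and its group is the image of `art`),
* the kernel consists of the classes of the units of `ℤ[i]` (so the Galois group is the ray class
  group modulo `q`),
* `K/ℚ(i)` is unramified outside `q`: the inertia group at every prime `v` of `K` not dividing `q`
  is trivial,
* for every prime `π` of `ℤ[i]` not dividing `q`, `art π` is the Frobenius automorphism
  `x ↦ x ^ N(π)` at all primes `v` of `K` above `π`. -/
structure IsRayClassField (q : GaussianInt) (K : Type) [Field K] [NumberField K]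
    (ι : GaussianInt →+* 𝓞 K)
    (art : (GaussianInt ⧸ Ideal.span {q})ˣ →* (𝓞 K ≃+* 𝓞 K)) : Prop where
  invariants : ∀ x : 𝓞 K, (∀ u, art u x = x) ↔ x ∈ ι.range
  kernel : ∀ u : (GaussianInt ⧸ Ideal.span {q})ˣ, art u = 1 ↔
    ∃ e : GaussianIntˣ, (u : GaussianInt ⧸ Ideal.span {q}) = Ideal.Quotient.mk _ (e : GaussianInt)
  unramified : ∀ v : HeightOneSpectrum (𝓞 K), ι q ∉ v.asIdeal →
    ∀ u, (∀ x, art u x - x ∈ v.asIdeal) → art u = 1
  frobenius : ∀ π : GaussianInt, Prime π → ∀ u : (GaussianInt ⧸ Ideal.span {q})ˣ,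
    (u : GaussianInt ⧸ Ideal.span {q}) = Ideal.Quotient.mk _ π →
    ∀ v : HeightOneSpectrum (𝓞 K), ι π ∈ v.asIdeal →
      ∀ x : 𝓞 K, art u x - x ^ π.norm.natAbs ∈ v.asIdeal

/-- `1 - a n^(-s) + ε n^(1-2s)` -/
noncomputable def localPoly (a ε : ℤ) (n : ℕ) (s : ℂ) : ℂ :=
  1 - (a : ℂ) * (n : ℂ) ^ (-s) + (ε : ℂ) * (n : ℂ) ^ (1 - 2 * s)

/-- the `(a, ε)` which are possible for the Euler factor `(1 - a n^(-s) + ε n^(1-2s))⁻¹` of an
elliptic curve at a place with `n` residue classes: `ε = 1` and `a² ≤ 4 n` (good reduction, Hasse) or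
`ε = 0` and `a ∈ {-1, 0, 1}` (bad reduction) -/
def Possible (n : ℕ) (a ε : ℤ) : Prop := (ε = 1 ∧ a ^ 2 ≤ 4 * (n : ℤ)) ∨ (ε = 0 ∧ a ^ 2 ≤ 1)

section
variable {K : Type} [Field K] [NumberField K]

/-- the places of `K` dividing `q` or `D` -/
def exceptional (q : GaussianInt) (ι : GaussianInt →+* 𝓞 K) (D : ℤ) :
    Set (HeightOneSpectrum (𝓞 K)) :=
  {v | ι q ∈ v.asIdeal ∨ (D : 𝓞 K) ∈ v.asIdeal}

open Classical in
/-- The Euler factor at `v` of `y² = x³ - D x`.  If `v` does not divide `q D` (then it does not divide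
`2 D`, the reduction is good) it is `(1 - a_v (Nv)^(-s) + (Nv)^(1-2s))⁻¹`, where `a_v` is `Nv` minus
the number of affine solutions `(x, y)` of the equation over the residue field `𝓞 K / v`; for the
finitely many other places it is the factor given by `(a v, ε v)`. -/
noncomputable def factor (q : GaussianInt) (ι : GaussianInt →+* 𝓞 K) (D : ℤ)
    (a ε : HeightOneSpectrum (𝓞 K) → ℤ) (s : ℂ) (v : HeightOneSpectrum (𝓞 K)) : ℂ :=
  if v ∈ exceptional q ι D then (localPoly (a v) (ε v) (Ideal.absNorm v.asIdeal) s)⁻¹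
  else (localPoly (((Ideal.absNorm v.asIdeal : ℕ) : ℤ) -
      ((Nat.card {p : (𝓞 K ⧸ v.asIdeal) × (𝓞 K ⧸ v.asIdeal) //
        p.2 ^ 2 = p.1 ^ 3 - (D : 𝓞 K ⧸ v.asIdeal) * p.1} : ℕ) : ℤ)) 1
      (Ideal.absNorm v.asIdeal) s)⁻¹

/-- `L` is `L(E/K, s)` on the half-plane `Re s > 1/2`: it is analytic there, and for `Re s > 3/2` it is
the Euler product. -/
def IsL (q : GaussianInt) (ι : GaussianInt →+* 𝓞 K) (D : ℤ)
    (a ε : HeightOneSpectrum (𝓞 K) → ℤ) (L : ℂ → ℂ) : Prop :=
  AnalyticOnNhd ℂ L {s : ℂ | 1 / 2 < s.re} ∧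
    ∀ s : ℂ, 3 / 2 < s.re → HasProd (factor q ι D a ε s) (L s)

end

/-- Quotients of finite Euler products: the class generated by the nonzero constants and the
functions `P (n ^ (-s))`, where `P` is a polynomial with constant term one and `n ≥ 2`. -/
inductive EulerQuot : (ℂ → ℂ) → Prop
  | const (c : ℂ) (hc : c ≠ 0) : EulerQuot fun _ => c
  | factor (n : ℕ) (hn : 2 ≤ n) (P : ℂ[X]) (hP : P.coeff 0 = 1) :
      EulerQuot fun s => P.eval ((n : ℂ) ^ (-s))
  | mul {f g : ℂ → ℂ} (hf : EulerQuot f) (hg : EulerQuot g) : EulerQuot fun s => f s * g s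
  | inv {f : ℂ → ℂ} (hf : EulerQuot f) : EulerQuot fun s => (f s)⁻¹

/-- `Λ` is the completion of `L` with `m` factors `(2 π)^(-s) Γ(s)`: it is entire, real on the real
axis, `Λ(2 - s) = Λ(s)`, and on the half-plane `Re s > 1/2` it is
`A^(s/2) ((2 π)^(-s) Γ(s))^m B(s) L(s)` with `A > 0` and a quotient `B` of finite Euler products which
has no zeros and no poles there. -/
def IsCompletion (m : ℕ) (L Λ : ℂ → ℂ) : Prop :=
  Differentiable ℂ Λ ∧ (∀ s : ℂ, Λ (2 - s) = Λ s) ∧ (∀ s : ℂ, Λ (conj s) = conj (Λ s)) ∧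
    ∃ (A : ℝ) (B : ℂ → ℂ), 0 < A ∧ EulerQuot B ∧ AnalyticOnNhd ℂ B {s : ℂ | 1 / 2 < s.re} ∧
      (∀ s : ℂ, 1 / 2 < s.re → B s ≠ 0) ∧
      ∀ s : ℂ, 1 / 2 < s.re → Λ s = (A : ℂ) ^ (s / 2) *
        ((2 * (Real.pi : ℂ)) ^ (-s) * Complex.Gamma s) ^ m * (B s * L s)

/-- The coefficients `γ(k) = k! / (2k)! * Λ^(2k)(1)`, so that `Λ(1 + z) = ∑ γ(k) z^(2k) / k!`. -/
noncomputable def gamma (Λ : ℂ → ℂ) (k : ℕ) : ℝ :=
  (k.factorial : ℝ) / ((2 * k).factorial : ℝ) * (iteratedDeriv (2 * k) (fun z => Λ (1 + z)) 0).re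

/-- The Jensen polynomial `J^{d,n}(X) = ∑_{j ≤ d} binom(d,j) γ(n+j) X^j` of degree `d` and shift `n`. -/
noncomputable def jensen (Λ : ℂ → ℂ) (d n : ℕ) : ℝ[X] :=
  ∑ j ∈ Finset.range (d + 1), C ((d.choose j : ℝ) * gamma Λ (n + j)) * X ^ j

lemma conv {f : ℂ → ℂ} (h : Pool.Agent.W355.EK.EulerQuot f) : EulerQuot f := by
  induction h with
  | const c hc => exact EulerQuot.const c hc
  | factor n hn P hP => exact EulerQuot.factor n hn P hP
  | mul _ _ ih1 ih2 => exact EulerQuot.mul ih1 ih2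
  | inv _ ih => exact EulerQuot.inv ih

/-- **Main theorem.**  Here `2 * Nat.card art.range = 2 [K : ℚ(i)] = [K : ℚ]`. -/
theorem result (q : GaussianInt) (hq : q ≠ 0) (h2 : (⟨2, 2⟩ : GaussianInt) ∣ q)
    (K : Type) [Field K] [NumberField K] (ι : GaussianInt →+* 𝓞 K)
    (art : (GaussianInt ⧸ Ideal.span {q})ˣ →* (𝓞 K ≃+* 𝓞 K)) (hK : IsRayClassField q K ι art)
    (D : ℤ) (hD : D ≠ 0) (hd : ∃ d : 𝓞 K, d ^ 4 = (D : 𝓞 K))
    (a ε : HeightOneSpectrum (𝓞 K) → ℤ)
    (hpos : ∀ v ∈ exceptional q ι D, Possible (Ideal.absNorm v.asIdeal) (a v) (ε v)) :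
    (exceptional q ι D).Finite ∧ ∃ L Λ : ℂ → ℂ, IsL q ι D a ε L ∧
      IsCompletion (2 * Nat.card art.range) L Λ ∧
      ∃ C : ℝ, 0 < C ∧
        (∀ d n : ℕ, 1 ≤ d → C * Real.log (d + 1) ≤ n → (jensen Λ d n).natDegree = d ∧
          ∀ z : ℂ, aeval z (jensen Λ d n) = 0 → z.im = 0 ∧ z.re < 0) ∧
        ((∀ s : ℂ, 1 / 2 < s.re → L s = 0 → s.re = 1) ↔
          ∀ d n : ℕ, 1 ≤ d → (n : ℝ) < C * Real.log (d + 1) → jensen Λ d n = 0 ∨
            ∀ z : ℂ, aeval z (jensen Λ d n) = 0 → z.im = 0 ∧ z.re ≤ 0) := by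
  choose cd pr hp using H385.prim_exists
  classical
  have hprim : ∀ q : GaussianInt, q ≠ 0 → ∀ χ ∈ H385.FQs q,
      (if h : q ≠ 0 ∧ H385.chiZ q χ H385.im1 = -I then cd q h.1 χ h.2 else 1) ∣ q ∧
      Pool.Agent.H304R3.HK.HC
        (if h : q ≠ 0 ∧ H385.chiZ q χ H385.im1 = -I then cd q h.1 χ h.2 else 1)
        (if h : q ≠ 0 ∧ H385.chiZ q χ H385.im1 = -I then pr q h.1 χ h.2 else 1) ∧
      ∀ a : GaussianInt, IsCoprime a q →
        (if h : q ≠ 0 ∧ H385.chiZ q χ H385.im1 = -I then pr q h.1 χ h.2 else 1) a =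
          H385.chiZ q χ a := by
    intro q hq χ hχ
    have h := ((H385.fq_finite q hq).2.2 χ).1 hχ
    rw [dif_pos ⟨hq, h⟩, dif_pos ⟨hq, h⟩]
    exact hp q hq χ h
  obtain ⟨hfin, L, Λ, B, A, hA, hL, hprod, hΛ, hfe, hreal, hBq, hB, hB0, hkey, hJ, -⟩ :=
    Pool.Agent.W355.EK.main _ _ hprim hq h2 K ι art
      ⟨hK.invariants, hK.kernel, hK.unramified, hK.frobenius⟩ hD hd a ε hpos
  obtain ⟨C, hC, h3, h4⟩ := hJ
  exact ⟨hfin, L, Λ, ⟨hL, hprod⟩, ⟨hΛ, hfe, hreal, A, B, hA, conv hBq, hB, hB0, hkey⟩, C, hC, h3, h4⟩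

end Pool.Agent.Results.MP_fb225e_nt.JensenRayClassFields
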