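import Pool.Agent.W355.UN.Ab2

/-!
# The de Bruijn-Newman constants of elliptic curves over all abelian number fields

`E : y² = x³ + a x + b` is an elliptic curve over `ℚ` of conductor `N`, and `K` an abelian number field
whose conductor `f_K` is prime to `N`.  By the theorem of Kronecker and Weber `K` is given by its group
`G` of Dirichlet characters modulo `M` (any `M` such that `K ⊆ ℚ(ζ_M)`); `[K : ℚ]` is the order of `G`,
`f_K` is the least common multiple of the conductors `f_χ` of the characters in `G`, the discriminant is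
`± ∏ f_χ`, and `L(E/K, s)` is the product of the twists `L(E ⊗ χ, s)` over the primitive characters
associated with the `χ` in `G`.  So
`Λ(E/K, s) = A^(s/2) ((2π)^(-s) Γ(s))^[K : ℚ] L(E/K, s)` with `A = ∏ N f_χ² = N^[K : ℚ] disc(K)²`.
The degree `2 [K : ℚ]` of this L-function is unbounded.

Let `Λ_t = e^{t D²} Λ` (`D = d/ds`) be the heat flow of `Λ = Λ(E/K, s)`.  If all zeros of `Λ_t` are on the
line `Re s = 1`, the same is true for all larger `t`, and it is true for `t ≥ 1/8` (de Bruijn); the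
Riemann hypothesis for `L(E/K, s)` says that it is true for all `t > 0`.

We prove, uniformly in `E` and `K`: there is ONE constant `C` such that for all `E` and all `K` all zeros
of `Λ_t` are on the line for `t ≥ C / ([K : ℚ] + log A)`, so the Riemann hypothesis for `L(E/K, s)` is
equivalent to the same statement for the smaller `t`.  For every `η > 0`, for all pairs `(E, K)` with
`N f_K ≥ T(η)` (that is for all but finitely many pairs, up to isogeny of `E`) this holds for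
`t ≥ (1 + η) / log A`.  So the de Bruijn-Newman constants tend to zero in the family of all pairs, with
the same constant `1` as over `ℚ`.  Both statements have a local form with the analytic conductor
`A (1 + |Im s|)^(2 [K : ℚ])`.

Proof.  `Λ_t(1 + x + i y)` is a sum of two half-line integrals `h(x) ± conj h(-x)` (normalised), and
`|h(x)| > |h(-x)|` for `x > 0` by the saddle point method of helper169 (modules `Pool.Agent.W169.HF`,
with helpers 12, 32, 45, 174, 186, 216, 327, 346, 363, 577, 578, 597, 613, 736, 762, 806, 930, 959),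
which we make uniform in the degree (modules `Pool.Agent.W355.UN`, parts by helpers 12, 215, 672, 803).
The functional equations of the twists are those of helpers 388 and 440 (`Pool.Agent.W440.TW`); the
conductor-discriminant formula gives `log A ≥ [K : ℚ] log (N f_K)`.
-/

set_option autoImplicit false

open Complex UpperHalfPlane MatrixGroups CongruenceSubgroup
open scoped ComplexConjugate

namespace Pool.Agent.Results.MP_fb225e_nt.NewmanAbelianFields

/-- The coefficient `a_p` of `E : y² = x³ + a x + b` at a prime `p ∤ 2 (4a³ + 27b²)`: `p` minus the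
number of pairs `(x, y)` modulo `p` with `y² ≡ x³ + a x + b (mod p)`. -/
noncomputable def ap (a b : ℤ) (p : ℕ) : ℤ :=
  (p : ℤ) - (((Finset.range p ×ˢ Finset.range p).filter
    (fun xy : ℕ × ℕ => (p : ℤ) ∣ (xy.2 : ℤ) ^ 2 -
      ((xy.1 : ℤ) ^ 3 + a * (xy.1 : ℤ) + b))).card : ℤ)

/-- The `n`-th Fourier coefficient of `f`. -/
noncomputable def coef {N : ℕ} (f : CuspForm (Gamma0 N : Subgroup (GL (Fin 2) ℝ)) 2) (n : ℕ) : ℂ :=
  (qExpansion 1 f).coeff n

/-- `f ∈ S_2(Γ₀(N))` is the newform of the elliptic curve `E : y² = x³ + a x + b` of conductor `N` and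
root number `w`: the Fourier coefficients `c(n)` of `f` are real with `c(1) = 1`, they satisfy the
Hecke relations `c(mn) = c(m) c(n)` for coprime `m`, `n` and `c(p^(j+2)) = c(p) c(p^(j+1)) - p c(p^j)`
(without the last term if `p ∣ N`), `f(-1/(Nτ)) = -w N τ² f(τ)`, `c(p) = a_p(E)` for all primes
`p ∤ 2 (4a³ + 27b²)`, `|c(p)| ≤ 2 √p` for all `p ∤ N` (Hasse) and `c(p) = 0, 1, -1` for `p ∣ N`. -/
structure IsFormOf (a b : ℤ) (N : ℕ) (f : CuspForm (Gamma0 N : Subgroup (GL (Fin 2) ℝ)) 2) (w : ℝ) :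
    Prop where
  one : coef f 1 = 1
  real : ∀ n, (coef f n).im = 0
  mul : ∀ m n : ℕ, Nat.Coprime m n → coef f (m * n) = coef f m * coef f n
  pow : ∀ p j : ℕ, p.Prime → coef f (p ^ (j + 2)) = coef f p * coef f (p ^ (j + 1)) -
      (if p ∣ N then 0 else (p : ℂ) * coef f (p ^ j))
  sign : w = 1 ∨ w = -1
  fricke : ∀ τ τ' : ℍ, (τ' : ℂ) * ((N : ℂ) * (τ : ℂ)) = -1 →
    f τ' = -(w : ℂ) * (N : ℂ) * (τ : ℂ) ^ 2 * f τ
  points : ∀ p : ℕ, p.Prime → ¬ (p : ℤ) ∣ 2 * (4 * a ^ 3 + 27 * b ^ 2) → coef f p = (ap a b p : ℂ)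
  good : ∀ p : ℕ, p.Prime → ¬ p ∣ N → ‖coef f p‖ ≤ 2 * Real.sqrt p
  bad : ∀ p : ℕ, p.Prime → p ∣ N → coef f p = 0 ∨ coef f p = 1 ∨ coef f p = -1

/-- The completed L-function of the twist of `E` by `χ` modulo `q`, for `Re s > 3/2`:
`(√N q / 2π)^s Γ(s) ∑ c(n) χ(n) n^(-s)`. -/
noncomputable def twist {N : ℕ} (f : CuspForm (Gamma0 N : Subgroup (GL (Fin 2) ℝ)) 2) {q : ℕ}
    (χ : DirichletCharacter ℂ q) (s : ℂ) : ℂ :=
  ((Real.sqrt N * q / (2 * Real.pi) : ℝ) : ℂ) ^ s * Complex.Gamma s *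
    ∑' n : ℕ, coef f (n + 1) * χ ((n + 1 : ℕ) : ZMod q) * ((n + 1 : ℕ) : ℂ) ^ (-s)

section
variable {M : ℕ} (G : Subgroup (DirichletCharacter ℂ M)) [Fintype G]

/-- `Λ = Λ(E/K, s)`, where `K` is the abelian number field with the group `G` of Dirichlet
characters: `Λ` is entire and, for large real part, it is the product over `χ` in `G` of the completed
L-functions of the twists of `E` by the primitive character associated with `χ`. -/
def IsCompleted {N : ℕ} (f : CuspForm (Gamma0 N : Subgroup (GL (Fin 2) ℝ)) 2) (Λ : ℂ → ℂ) : Prop :=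
  Differentiable ℂ Λ ∧ ∃ σ : ℝ, ∀ s : ℂ, σ ≤ s.re →
    Λ s = ∏ χ : G, twist f (χ : DirichletCharacter ℂ M).primitiveCharacter s

/-- The conductor `A = ∏ N f_χ² = N^[K : ℚ] disc(K)²` of `L(E/K, s)`. -/
noncomputable def A (N : ℕ) : ℝ :=
  ∏ χ : G, ((N : ℝ) * ((χ : DirichletCharacter ℂ M).conductor : ℝ) ^ 2)

/-- The conductor `f_K` of `K`, the least common multiple of the conductors of the characters. -/
noncomputable def fK : ℕ := Finset.univ.lcm fun χ : G => (χ : DirichletCharacter ℂ M).conductor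

end

/-- The heat flow `Λ_t = e^{t D²} Λ` (`D = d/ds`) as a Gaussian average:
`Λ_t(s) = π^(-1/2) ∫ exp (-v²) Λ(s + 2 √t v) dv`. -/
noncomputable def heat (t : ℝ) (Λ : ℂ → ℂ) (s : ℂ) : ℂ :=
  ((1 / Real.sqrt Real.pi : ℝ) : ℂ) *
    ∫ v : ℝ, ((Real.exp (-v ^ 2) : ℝ) : ℂ) * Λ (s + ((2 * Real.sqrt t * v : ℝ) : ℂ))

/-- all zeros of `F` are on the line `Re s = 1` -/
def OnLine (F : ℂ → ℂ) : Prop := ∀ s : ℂ, F s = 0 → s.re = 1

/-- **Main theorem.**  `Fintype.card G = [K : ℚ]`. -/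
theorem result : ∃ (C : ℝ) (T : ℝ → ℝ), 0 < C ∧
    ∀ (a b : ℤ) (N : ℕ) [NeZero N] (f : CuspForm (Gamma0 N : Subgroup (GL (Fin 2) ℝ)) 2) (w : ℝ),
    4 * a ^ 3 + 27 * b ^ 2 ≠ 0 → IsFormOf a b N f w →
    ∀ (M : ℕ) [NeZero M] (G : Subgroup (DirichletCharacter ℂ M)) [Fintype G], Nat.Coprime M N →
    ∃ Λ : ℂ → ℂ, IsCompleted G f Λ ∧ (∀ Λ' : ℂ → ℂ, IsCompleted G f Λ' → Λ' = Λ) ∧
      (∃ W : ℂ, ‖W‖ = 1 ∧ ∀ s : ℂ, Λ (2 - s) = W * conj (Λ (conj s))) ∧
      (∀ t : ℝ, 0 < t → C ≤ t * (Fintype.card G + Real.log (A G N)) → OnLine (heat t Λ)) ∧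
      (OnLine Λ ↔ ∀ t : ℝ, 0 < t → t * (Fintype.card G + Real.log (A G N)) < C →
        OnLine (heat t Λ)) ∧
      (∀ (t : ℝ) (s : ℂ), 0 < t →
        C ≤ t * (Fintype.card G + Real.log (A G N * (1 + |s.im|) ^ (2 * Fintype.card G))) →
        heat t Λ s = 0 → s.re = 1) ∧
      ∀ η : ℝ, 0 < η →
        (T η ≤ N * fK G →
          (∀ t : ℝ, (1 + η) / Real.log (A G N) ≤ t → OnLine (heat t Λ)) ∧
          (OnLine Λ ↔ ∀ t : ℝ, 0 < t → t < (1 + η) / Real.log (A G N) → OnLine (heat t Λ))) ∧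
        (∀ (t : ℝ) (s : ℂ), 0 < t → T η ≤ N * fK G * (1 + |s.im|) ^ 2 →
          1 + η ≤ t * Real.log (A G N * (1 + |s.im|) ^ (2 * Fintype.card G)) →
          heat t Λ s = 0 → s.re = 1) := by
  obtain ⟨C, K, hC, -, H⟩ := Pool.Agent.W355.UN.fin_all
  refine ⟨C, fun η => Real.exp (2 * K η), hC, ?_⟩
  intro a b N _ f w _ hf M _ G _ hco
  have hf' : Pool.Agent.W169.HF.IsForm N f w :=
    { one := hf.one
      real := hf.real
      mul := hf.mul
      pow := hf.pow
      sign := hf.sign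
      fricke := hf.fricke
      good := hf.good
      bad := fun p hp hpN => by
        have h1 : (1 : ℝ) ≤ Real.sqrt p := by
          rw [Real.one_le_sqrt]
          exact_mod_cast hp.one_le
        have h2 : ‖coef f p‖ ≤ 1 := by
          rcases hf.bad p hp hpN with h | h | h <;> simp [h]
        exact h2.trans h1 }
  obtain ⟨Λ, h1, h2, h3, h4, h5, h6, h7⟩ := Pool.Agent.W355.UN.main_ab G H hC hf' hco
  exact ⟨Λ, ⟨h1, h2⟩, fun Λ' h' => Pool.Agent.W355.UN.Pk.uniq h1 h'.1 h2 h'.2, h3, h4, h5, h6, h7⟩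

end Pool.Agent.Results.MP_fb225e_nt.NewmanAbelianFields
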