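import Pool.Agent.W164.RC.Bad

/-!
# The zeros of `L(E/K, s)` for the ray class fields `K` of `ℚ(i)`

`E : y² = x³ - D x`, `D` a non-zero integer (these are, up to isomorphism, the elliptic curves over
`ℚ` with `j = 1728`), and `K` is a ray class field of `ℚ(i)` whose modulus `q` is divisible by
`2 + 2i` and which contains a fourth root of `D` (for `D = 1`, every such ray class field).

We prove, for every single field `K`, that at least 67.25 per cent of the zeros of `L(E/K, s)` with
`T < Im s ≤ 2T` are on the line `Re s = 1`, for all `T` between `C (1 + √(log N(q)))` and `N(q)^η`,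
with absolute constants `C` and `η > 0`.  No average over the fields is needed and nothing is
assumed; the continuation of `L(E/K, s)` is part of the result.

Proof.  (1) The Galois group of `K/ℚ(i)` acts transitively on the primes above a Gaussian prime
`π ∤ q`, the decomposition group is generated by the Frobenius automorphism, so the splitting of `π`
is read off from the order of the primary generator modulo `q`.  (2) Gauss' count of the points of
`y² = x³ - x`.  (3) Hence the Euler factors above `π` are the product of the Euler factors of all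
Hecke characters `ψ_E χ`, `χ` a ray class character modulo `q`, and of the conjugate characters, which
belong to the modulus `q̄`.  (4) The Hecke L-functions are entire and at least 67.25 per cent of all
their zeros are on the critical line, by the theorem on all Hecke characters of infinity type one
modulo `q` (file `HeckeEveryModulus` under MP_7193be_nt), applied to `q` and to `q̄`.
-/

set_option autoImplicit false

open Complex NumberField IsDedekindDomain

namespace Pool.Agent.Results.MP_fb225e_nt.RayClassFields6725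

/-- `K` is the ray class field of `ℚ(i)` of modulus `q`: `ι` embeds `ℤ[i]` into the ring of integers
of `K`, and `art` is the Artin map, a homomorphism from `(ℤ[i]/q)ˣ` to the group of automorphisms of
the ring of integers of `K` (equivalently of `K`) such that
* `ℤ[i]` is the ring of invariants (so `K/ℚ(i)` is Galois and its group is the image of `art`),
* the kernel consists of the classes of the units of `ℤ[i]` (so the Galois group is the ray class
  group modulo `q`),
* `K/ℚ(i)` is unramified outside `q`: the inertia group at every prime `v` of `K` not dividing `q`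
  is trivial,
* for every prime `π` of `ℤ[i]` not dividing `q`, `art π` is the Frobenius automorphism
  `x ↦ x ^ N(π)` at all primes `v` of `K` above `π`. -/
structure IsRayClassField (q : GaussianInt) (K : Type) [Field K] [NumberField K]
    (ι : GaussianInt →+* 𝓞 K)
    (art : (GaussianInt ⧸ Ideal.span {q})ˣ →* (𝓞 K ≃+* 𝓞 K)) : Prop where
  invariants : ∀ x : 𝓞 K, (∀ u, art u x = x) ↔ x ∈ ι.range
  kernel : ∀ u : (GaussianInt ⧸ Ideal.span {q})ˣ, art u = 1 ↔
    ∃ e : GaussianIntˣ, (u : GaussianInt ⧸ Ideal.span {q}) = Ideal.Quotient.mk _ (e : GaussianInt)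
  unramified : ∀ v : HeightOneSpectrum (𝓞 K), ι q ∉ v.asIdeal →
    ∀ u, (∀ x, art u x - x ∈ v.asIdeal) → art u = 1
  frobenius : ∀ π : GaussianInt, Prime π → ∀ u : (GaussianInt ⧸ Ideal.span {q})ˣ,
    (u : GaussianInt ⧸ Ideal.span {q}) = Ideal.Quotient.mk _ π →
    ∀ v : HeightOneSpectrum (𝓞 K), ι π ∈ v.asIdeal →
      ∀ x : 𝓞 K, art u x - x ^ π.norm.natAbs ∈ v.asIdeal

/-- `1 - a n^(-s) + ε n^(1-2s)` -/
noncomputable def localPoly (a ε : ℤ) (n : ℕ) (s : ℂ) : ℂ :=
  1 - (a : ℂ) * (n : ℂ) ^ (-s) + (ε : ℂ) * (n : ℂ) ^ (1 - 2 * s)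

/-- the `(a, ε)` which are possible for the Euler factor `(1 - a n^(-s) + ε n^(1-2s))⁻¹` of an
elliptic curve at a place with `n` residue classes: `ε = 1` and `a² ≤ 4 n` (good reduction, Hasse) or
`ε = 0` and `a ∈ {-1, 0, 1}` (bad reduction) -/
def Possible (n : ℕ) (a ε : ℤ) : Prop := (ε = 1 ∧ a ^ 2 ≤ 4 * (n : ℤ)) ∨ (ε = 0 ∧ a ^ 2 ≤ 1)

section
variable {K : Type} [Field K] [NumberField K]

/-- the places of `K` dividing `q` or `D` -/
def exceptional (q : GaussianInt) (ι : GaussianInt →+* 𝓞 K) (D : ℤ) :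
    Set (HeightOneSpectrum (𝓞 K)) :=
  {v | ι q ∈ v.asIdeal ∨ (D : 𝓞 K) ∈ v.asIdeal}

open Classical in
/-- The Euler factor at `v` of `y² = x³ - D x`.  If `v` does not divide `q D` (then it does not divide
`2 D`, the reduction is good) it is `(1 - a_v (Nv)^(-s) + (Nv)^(1-2s))⁻¹`, where `a_v` is `Nv` minus
the number of affine solutions `(x, y)` of the equation over the residue field `𝓞 K / v`; for the
finitely many other places it is the factor given by `(a v, ε v)`. -/
noncomputable def factor (q : GaussianInt) (ι : GaussianInt →+* 𝓞 K) (D : ℤ)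
    (a ε : HeightOneSpectrum (𝓞 K) → ℤ) (s : ℂ) (v : HeightOneSpectrum (𝓞 K)) : ℂ :=
  if v ∈ exceptional q ι D then (localPoly (a v) (ε v) (Ideal.absNorm v.asIdeal) s)⁻¹
  else (localPoly (((Ideal.absNorm v.asIdeal : ℕ) : ℤ) -
      ((Nat.card {p : (𝓞 K ⧸ v.asIdeal) × (𝓞 K ⧸ v.asIdeal) //
        p.2 ^ 2 = p.1 ^ 3 - (D : 𝓞 K ⧸ v.asIdeal) * p.1} : ℕ) : ℤ)) 1
      (Ideal.absNorm v.asIdeal) s)⁻¹

end

/-- The zeros of `F` with `Re s > 1/2` and `T < Im s ≤ 2T`. -/
def zeros (F : ℂ → ℂ) (T : ℝ) : Set ℂ :=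
  {s : ℂ | 1 / 2 < s.re ∧ T < s.im ∧ s.im ≤ 2 * T ∧ F s = 0}

/-- The number of these zeros, counted with multiplicity. -/
noncomputable def N (F : ℂ → ℂ) (T : ℝ) : ℕ := ∑ᶠ s ∈ zeros F T, analyticOrderNatAt F s

/-- The number of those of them that lie on the line `Re s = 1`, counted with multiplicity. -/
noncomputable def N₀ (F : ℂ → ℂ) (T : ℝ) : ℕ :=
  ∑ᶠ s ∈ {s : ℂ | s ∈ zeros F T ∧ s.re = 1}, analyticOrderNatAt F s

/-- **Main theorem.** There are absolute constants `C` and `η > 0` with the following property.  Let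
`K` be the ray class field of `ℚ(i)` of modulus `q`, `2 + 2i ∣ q`, and let `D ≠ 0` be an integer with a
fourth root in `K`.  For every choice of possible Euler factors at the finitely many places dividing
`q D` (for example the ones of `E_D : y² = x³ - D x`) there is a function `L`, analytic for
`Re s > 1/2`, which for `Re s > 3/2` is the product over all places `v` of `K` of the Euler factors of
`E_D`; its product with the (finitely many) local polynomials at the places dividing `q D` is entire;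
and for `C (1 + √(log N(q))) ≤ T ≤ N(q) ^ η` at least 67.25% of the zeros of `L` with `Re s > 1/2`,
`T < Im s ≤ 2T` (with multiplicity) lie on the line `Re s = 1`; the number of these zeros is at least
`2 [K : ℚ(i)] T = [K : ℚ] T`. -/
theorem result : ∃ C η : ℝ, 0 < η ∧
    ∀ q : GaussianInt, q ≠ 0 → (⟨2, 2⟩ : GaussianInt) ∣ q →
    ∀ (K : Type) [Field K] [NumberField K] (ι : GaussianInt →+* 𝓞 K)
      (art : (GaussianInt ⧸ Ideal.span {q})ˣ →* (𝓞 K ≃+* 𝓞 K)), IsRayClassField q K ι art →
    ∀ D : ℤ, D ≠ 0 → (∃ d : 𝓞 K, d ^ 4 = (D : 𝓞 K)) →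
    ∀ a ε : HeightOneSpectrum (𝓞 K) → ℤ,
      (∀ v ∈ exceptional q ι D, Possible (Ideal.absNorm v.asIdeal) (a v) (ε v)) →
    ∃ L : ℂ → ℂ, AnalyticOnNhd ℂ L {s : ℂ | 1 / 2 < s.re} ∧
      (∀ s : ℂ, 3 / 2 < s.re → HasProd (factor q ι D a ε s) (L s)) ∧
      (exceptional q ι D).Finite ∧
      (∃ F : ℂ → ℂ, Differentiable ℂ F ∧ ∀ s : ℂ, 1 / 2 < s.re →
        F s = L s * ∏ᶠ v ∈ exceptional q ι D,
          localPoly (a v) (ε v) (Ideal.absNorm v.asIdeal) s) ∧
      ∀ T : ℝ, C * (1 + Real.sqrt (Real.log (Zsqrtd.norm q : ℝ))) ≤ T →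
        T ≤ (Zsqrtd.norm q : ℝ) ^ η →
        (zeros L T).Finite ∧
        2 * (Nat.card art.range : ℝ) * T ≤ (N L T : ℝ) ∧
        0.6725 * (N L T : ℝ) ≤ (N₀ L T : ℝ) := by
  classical
  obtain ⟨F, C, η, hη, H⟩ := Pool.Agent.W164.RC.main_final
  refine ⟨C, η, hη, fun q hq h2 K _ _ ι art hK D hD hd a ε hpos => ?_⟩
  have hK' : Pool.Agent.W164.RC.IsRayClassField q K ι art :=
    ⟨hK.invariants, hK.kernel, hK.unramified, hK.frobenius⟩
  obtain ⟨hF, hprod, hzero⟩ := H q hq h2
  obtain ⟨hcard, hprod⟩ := hprod K ι art hK'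
  obtain ⟨d, hd⟩ := hd
  have hιinj : Function.Injective ι := by
    rw [injective_iff_map_eq_zero]
    intro b hb
    by_contra h0
    have h3 : ι ((b.norm : ℤ) : GaussianInt) = 0 := by
      rw [Zsqrtd.norm_eq_mul_conj, map_mul, hb, zero_mul]
    rw [map_intCast] at h3
    have h4 : b.norm = 0 := by exact_mod_cast h3
    exact h0 (GaussianInt.norm_eq_zero.1 h4)
  have hιq : ι q ≠ 0 := fun h => hq (hιinj (by rw [h, map_zero]))
  have hDK : (D : 𝓞 K) ≠ 0 := by exact_mod_cast hD
  have hfin : (exceptional q ι D).Finite :=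
    (Pool.Agent.W164.RC.places_finite hιq).union (Pool.Agent.W164.RC.places_finite hDK)
  set S : Finset (HeightOneSpectrum (𝓞 K)) := hfin.toFinset with hS
  have hmemS : ∀ v, v ∈ S ↔ v ∈ exceptional q ι D := fun v => by rw [hS]; simp
  have hn2 : ∀ v : HeightOneSpectrum (𝓞 K), 2 ≤ Ideal.absNorm v.asIdeal :=
    fun v => Pool.Agent.H921R2.TatePole.two_le_nm v
  have hlp : ∀ (a ε : ℤ) (n : ℕ) (s : ℂ), localPoly a ε n s = Pool.Agent.W164.RC.lpoly a ε n s :=
    fun _ _ _ _ => rfl
  -- places over two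
  have htwo : ∀ v : HeightOneSpectrum (𝓞 K), ι q ∉ v.asIdeal →
      (Pool.Agent.H921R2.TatePole.below v : ℕ) ≠ 2 := by
    intro v hv hb
    apply hv
    have h7 := (Pool.Agent.H921R2.TatePole.nm_eq v).2.2
    rw [hb] at h7
    have h4 : ι ⟨1, 1⟩ ∈ v.asIdeal := by
      have h5 : ι ⟨1, 1⟩ * ι ⟨1, 1⟩ ∈ v.asIdeal := by
        have e : ((⟨1, 1⟩ : GaussianInt) * ⟨1, 1⟩) = ⟨0, 1⟩ * ((2 : ℕ) : GaussianInt) := by decide
        rw [← map_mul, e, map_mul, map_natCast]
        exact v.asIdeal.mul_mem_left _ h7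
      rcases v.isPrime.mem_or_mem h5 with h | h <;> exact h
    obtain ⟨c, rfl⟩ := (show (⟨1, 1⟩ : GaussianInt) ∣ ⟨2, 2⟩ from ⟨2, by decide⟩).trans h2
    rw [map_mul]
    exact v.asIdeal.mul_mem_right _ h4
  -- the numerator at the exceptional places not dividing `q`
  set g : HeightOneSpectrum (𝓞 K) → ℂ → ℂ := fun v s =>
    if ι q ∈ v.asIdeal then 1
    else Pool.Agent.W164.RC.lpoly (Pool.Agent.W164.RC.tr v) 1 (Ideal.absNorm v.asIdeal) s with hg
  have hgdiff : ∀ v, Differentiable ℂ (g v) := by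
    intro v
    rw [hg]
    by_cases h : ι q ∈ v.asIdeal
    · simp only [if_pos h]
      exact differentiable_const _
    · simp only [if_neg h]
      exact Pool.Agent.W164.RC.lpoly_diff _ _ (hn2 v)
  have hgne : ∀ v (s : ℂ), 1 / 2 < s.re → g v s ≠ 0 := by
    intro v s hs
    rw [hg]
    by_cases h : ι q ∈ v.asIdeal
    · simp only [if_pos h]
      exact one_ne_zero
    · simp only [if_neg h]
      exact Pool.Agent.W164.RC.lpoly_ne (hn2 v) (Pool.Agent.W164.RC.tr_poss v (htwo v h)) hs
  set P : HeightOneSpectrum (𝓞 K) → ℂ → ℂ := fun v s =>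
    Pool.Agent.W164.RC.lpoly (a v) (ε v) (Ideal.absNorm v.asIdeal) s with hP
  have hPdiff : ∀ v, Differentiable ℂ (P v) := fun v => Pool.Agent.W164.RC.lpoly_diff _ _ (hn2 v)
  have hPne : ∀ v ∈ S, ∀ s : ℂ, 1 / 2 < s.re → P v s ≠ 0 := by
    intro v hv s hs
    exact Pool.Agent.W164.RC.lpoly_ne (hn2 v) (hpos v ((hmemS v).1 hv)) hs
  set R : ℂ → ℂ := fun s => ∏ v ∈ S, (g v s * (P v s)⁻¹) with hR
  have hRan : ∀ s : ℂ, 1 / 2 < s.re → AnalyticAt ℂ R s := by
    intro s hs
    rw [hR]
    apply Finset.analyticAt_fun_prod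
    intro v hv
    exact ((hgdiff v).analyticAt s).mul (((hPdiff v).analyticAt s).inv (hPne v hv s hs))
  have hRne : ∀ s : ℂ, 1 / 2 < s.re → R s ≠ 0 := by
    intro s hs
    rw [hR]
    simp only
    rw [Finset.prod_ne_zero_iff]
    intro v hv
    exact mul_ne_zero (hgne v s hs) (inv_ne_zero (hPne v hv s hs))
  have hzeros : ∀ T : ℝ, zeros (fun s => F q s * R s) T = Pool.Agent.W164.RC.zerosH (F q) T := by
    intro T
    ext s
    constructor
    · rintro ⟨h1, h3, h4, h5⟩
      exact ⟨h1, h3, h4, (mul_eq_zero.1 h5).resolve_right (hRne s h1)⟩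
    · rintro ⟨h1, h3, h4, h5⟩
      refine ⟨h1, h3, h4, ?_⟩
      show F q s * R s = 0
      rw [h5, zero_mul]
  have hord : ∀ s : ℂ, 1 / 2 < s.re →
      analyticOrderNatAt (fun s => F q s * R s) s = analyticOrderNatAt (F q) s := by
    intro s hs
    unfold analyticOrderNatAt
    rw [Pool.Agent.W164.RC.order_mul_ne (hF.analyticAt s) (hRan s hs) (hRne s hs)]
  have hN : ∀ T : ℝ, N (fun s => F q s * R s) T = Pool.Agent.W164.RC.NH (F q) T := by
    intro T
    unfold N Pool.Agent.W164.RC.NH
    rw [hzeros]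
    exact finsum_mem_congr rfl fun s hs => hord s hs.1
  have hN₀ : ∀ T : ℝ, N₀ (fun s => F q s * R s) T = Pool.Agent.W164.RC.NH₀ (F q) T := by
    intro T
    unfold N₀ Pool.Agent.W164.RC.NH₀
    rw [hzeros]
    exact finsum_mem_congr rfl fun s hs => hord s hs.1.1
  refine ⟨fun s => F q s * R s, ?_, ?_, hfin, ?_, ?_⟩
  · intro s hs
    exact (hF.analyticAt s).mul (hRan s hs)
  · intro s hs
    have hs' : 1 / 2 < s.re := by linarith
    have h3 : HasProd (fun v : HeightOneSpectrum (𝓞 K) =>
        if v ∈ S then g v s * (P v s)⁻¹ else 1) (R s) := by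
      have h4 : R s = ∏ v ∈ S, (if v ∈ S then g v s * (P v s)⁻¹ else 1) := by
        rw [hR]
        exact Finset.prod_congr rfl fun v hv => by rw [if_pos hv]
      rw [h4]
      apply hasProd_prod_of_ne_finset_one
      intro v hv
      rw [if_neg hv]
    have h5 := (hprod s hs).mul h3
    refine h5.congr_fun ?_
    intro v
    unfold factor
    by_cases hv : v ∈ exceptional q ι D
    · rw [if_pos hv, if_pos ((hmemS v).2 hv), hlp]
      have hg1 := hgne v s hs'
      by_cases hvq : ι q ∈ v.asIdeal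
      · rw [if_pos hvq]
        have : g v s = 1 := by rw [hg]; simp only [if_pos hvq]
        rw [this, one_mul, one_mul]
      · rw [if_neg hvq, Pool.Agent.W164.RC.eulerFactor_lpoly]
        have : g v s = Pool.Agent.W164.RC.lpoly (Pool.Agent.W164.RC.tr v) 1
            (Ideal.absNorm v.asIdeal) s := by rw [hg]; simp only [if_neg hvq]
        rw [← this, ← mul_assoc, inv_mul_cancel₀ hg1, one_mul]
    · have hvS : v ∉ S := fun h => hv ((hmemS v).1 h)
      have hvq : ι q ∉ v.asIdeal := fun h => hv (Or.inl h)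
      have hvD : (D : 𝓞 K) ∉ v.asIdeal := fun h => hv (Or.inr h)
      rw [if_neg hv, if_neg hvS, if_neg hvq, mul_one, Pool.Agent.W164.RC.eulerFactor_lpoly, hlp]
      have hmax : v.asIdeal.IsMaximal := v.isPrime.isMaximal v.ne_bot
      letI : Field (𝓞 K ⧸ v.asIdeal) := Ideal.Quotient.field v.asIdeal
      have hd4 : (Ideal.Quotient.mk v.asIdeal d) ^ 4 = (D : 𝓞 K ⧸ v.asIdeal) := by
        rw [← map_pow, hd, map_intCast]
      have hd0 : Ideal.Quotient.mk v.asIdeal d ≠ 0 := by
        intro h0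
        rw [h0, zero_pow (by norm_num)] at hd4
        apply hvD
        rw [← Ideal.Quotient.eq_zero_iff_mem, map_intCast]
        exact hd4.symm
      have hct := Pool.Agent.W164.RC.card_twist (Ideal.Quotient.mk v.asIdeal d) hd0
      rw [hd4] at hct
      rw [hct]
      rfl
  · refine ⟨fun s => F q s * ∏ v ∈ S, g v s, ?_, ?_⟩
    · exact hF.mul (Differentiable.fun_finsetProd fun v _ => hgdiff v)
    · intro s hs
      have h3 : ∏ᶠ v ∈ exceptional q ι D, localPoly (a v) (ε v) (Ideal.absNorm v.asIdeal) s =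
          ∏ v ∈ S, P v s := by
        rw [← finprod_mem_coe_finset]
        have : (S : Set (HeightOneSpectrum (𝓞 K))) = exceptional q ι D := by
          ext v
          exact hmemS v
        rw [this]
        rfl
      rw [h3]
      show F q s * ∏ v ∈ S, g v s = F q s * R s * ∏ v ∈ S, P v s
      rw [hR, mul_assoc, ← Finset.prod_mul_distrib]
      congr 1
      refine Finset.prod_congr rfl fun v hv => ?_
      rw [mul_assoc, inv_mul_cancel₀ (hPne v hv s hs), mul_one]
  · intro T hT1 hT2
    obtain ⟨c1, c2, c3⟩ := hzero T hT1 hT2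
    rw [hN, hN₀, hzeros]
    refine ⟨c1, ?_, c3⟩
    refine le_trans (le_of_eq ?_) c2
    rw [← hcard]
    push_cast
    ring

end Pool.Agent.Results.MP_fb225e_nt.RayClassFields6725
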